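import Pool.Agent.helper87.X4.Spec

/-!
# x4: DB (base change of derivations)
-/

set_option autoImplicit false

namespace Pool.Agent.X4

open Matrix Pool.Agent.PL

theorem DB : DB_stmt := by
  intro N m F _ _ X t
  funext I
  simp only [up, der, cst, Matrix.map_apply, Rat.cast_sum, Rat.cast_mul]

end Pool.Agent.X4
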